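import Pool.Agent.Helper65.NX.Goals2

/-!
# Networks of processors, packet CLIN: the functions of the network of a circuit are computed in linear space.
-/

namespace Pool.Agent.Helper65.NX.K36

open Pool.Agent.Helper65.LinSpace Pool.Agent.Helper78.Mpc Pool.Agent.Helper28.Ram
open Pool.Agent.Helper65.HC Pool.Agent.Helper65.NX
open Pool.Agent.Helper81.Sus2 (Decomp)

theorem lc_ite {P : List Bool → Prop} {f g : List Bool → List Bool} (hP : PLS P)
    (hf : LinComp f) (hg : LinComp g) {inst : ∀ w, Decidable (P w)} :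
    LinComp fun w => @ite _ (P w) (inst w) (f w) (g w) := @LC.ite P inst f g hP hf hg

theorem w_ite {P : List Bool → Prop} {f g : List Bool → List Bool} (hP : PLS P)
    (hf : WLS f) (hg : WLS g) {inst : ∀ w, Decidable (P w)} :
    WLS fun w => @ite _ (P w) (inst w) (f w) (g w) := @WLS.ite P inst f g hP hf hg

theorem n_ite {P : List Bool → Prop} {f g : List Bool → ℕ} (hP : PLS P)
    (hf : NLS f) (hg : NLS g) {inst : ∀ w, Decidable (P w)} :
    NLS fun w => @ite _ (P w) (inst w) (f w) (g w) := @NLS.ite P inst f g hP hf hg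

theorem wls_cnb {f : List Bool → List Bool} (hu : WLS f) : WLS fun x => cnb (f x) := by
  unfold cnb
  refine w_ite (PLS.and (PLS.eq (NLS.mod (NLS.ht hu) (NLS.const 2)) (NLS.const 0))
    (PLS.and (PLS.not (PLS.eq (NLS.ht hu) (NLS.const 0)))
      (PLS.not (PLS.weq (WLS.hr hu) (WLS.const []))))) ?_ (WLS.hz hu)
  exact WLS.padd (WLS.hp hu) (WLS.bits (NLS.sub (NLS.div (NLS.ht hu) (NLS.const 2)) (NLS.const 1)))

theorem wls_cadr {f : List Bool → List Bool} (hu : WLS f) : WLS fun x => cadr (f x) := by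
  unfold cadr
  refine WLS.bits (n_ite (PLS.lt (WLS.val (WLS.hz hu)) (NLS.hn hu)) (WLS.val (WLS.hz hu)) ?_)
  exact NLS.sub (WLS.val (WLS.hz hu)) (NLS.hn hu)

theorem lc_flg {f : List Bool → List Bool} (hf : LinComp f) : LinComp fun x => flg (f x) := by
  unfold flg
  exact LC.append (w_ite (LC.letter_eq hf 0 (some true)) (WLS.const _) (WLS.const _)) hf

theorem lc_cnext (A : Circ) : LinComp (cnext A) := by
  have hx : WLS fun x => x := WLS.id
  have hu : WLS fun x => re (re x) := WLS.re (WLS.re hx)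
  have hv : WLS fun x => pr (hr (re (re x))) := WLS.pr (WLS.hr hu)
  have hv2 : WLS fun x => (pr (hr (re (re x)))).drop 2 := WLS.drop hv 2
  have hzn : NLS fun x => bval (hz (re (re x))) := WLS.val (WLS.hz hu)
  have htn : NLS fun x => ht (re (re x)) := NLS.ht hu
  have hnn : NLS fun x => hn (re (re x)) := NLS.hn hu
  have hzw : WLS fun x => sd (bval (hz (re (re x)))).bits := WLS.sdc (WLS.bits hzn)
  have hnw : WLS fun x => sd (hn (re (re x))).bits := WLS.sdc (WLS.bits hnn)
  have ht2 : NLS fun x => ht (re (re x)) / 2 := NLS.div htn (NLS.const 2)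
  unfold cnext
  refine lc_ite (PLS.lt (WLS.val (WLS.hp hu)) hzn) (LC.of_wls (WLS.const [])) ?_
  refine lc_ite (PLS.eq htn (NLS.const 0)) ?_ ?_
  · refine lc_ite (PLS.lt hzn hnn) (LC.of_wls (WLS.append (WLS.const _) (WLS.pr hx))) ?_
    exact lc_ite (PLS.weq (WLS.pr (WLS.re hx)) (WLS.const [])) (LC.of_wls (WLS.const _))
      (LC.of_wls (WLS.append (WLS.const _) (WLS.pr (WLS.re hx))))
  refine lc_ite (PLS.eq (NLS.mod htn (NLS.const 2)) (NLS.const 1)) ?_ ?_
  · refine lc_ite (PLS.eq hzn ht2) ?_ (LC.of_wls hv)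
    refine lc_ite (LC.letter_eq (LC.of_wls hv) 1 (some true))
      (LC.of_wls (WLS.append (WLS.const _) hv2)) (lc_flg ?_)
    exact LC.comp (f := A.out) A.out_lin (WLS.append hnw (WLS.append hzw hv2))
  · refine lc_ite (PLS.or (PLS.lt hzn ht2) (PLS.weq hv (WLS.const []))) (LC.of_wls (WLS.const [])) ?_
    refine lc_ite (LC.letter_eq (LC.of_wls hv) 1 (some true)) (LC.of_wls hv) ?_
    refine LC.append (WLS.const _) (LC.comp (f := A.step) A.step_lin ?_)
    refine WLS.append hnw (WLS.append hzw (WLS.append ?_ (WLS.append (WLS.sdc hv2) ?_)))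
    · exact WLS.sdc (WLS.bits (NLS.sub ht2 (NLS.const 1)))
    · exact WLS.drop (WLS.pr (WLS.re (WLS.hr hu))) 1

theorem lc_eadr (E : Decomp) : LinComp (eadr E) := by
  have hs : WLS fun σ => σ.drop 1 := WLS.drop WLS.id 1
  unfold eadr
  exact lc_ite (PLS.weq (WLS.re hs) (WLS.const [])) (LC.comp (f := E.addr) E.addr_lin (WLS.pr hs))
    (LC.of_wls (wls_cadr hs))

theorem lc_enext (E : Decomp) : LinComp (enext E) := by
  have hx : WLS fun x => x := WLS.id
  have hs : WLS fun x => (pr x).drop 1 := WLS.drop (WLS.pr hx) 1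
  have hn' : LinComp fun x => E.next (sd (pr ((pr x).drop 1)) ++ re x) :=
    LC.comp (f := E.next) E.next_lin (WLS.append (WLS.sdc (WLS.pr hs)) (WLS.re hx))
  have hzn : NLS fun x => bval (hz ((pr x).drop 1)) := WLS.val (WLS.hz hs)
  have ht2 : NLS fun x => (ht ((pr x).drop 1) - 1) / 2 :=
    NLS.div (NLS.sub (NLS.ht hs) (NLS.const 1)) (NLS.const 2)
  unfold enext
  refine lc_ite (PLS.weq (WLS.re hs) (WLS.const [])) ?_ ?_
  · refine lc_ite (PLS.and (LC.letter_eq hn' 0 (some true)) (LC.letter_eq hn' 1 (some true))) ?_ ?_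
    · exact LC.append (WLS.const _) (LC.drop hn' 2)
    · exact LC.append (WLS.const _) (LC.sdc hn')
  refine lc_ite (PLS.or (PLS.lt (WLS.val (WLS.hp hs)) hzn) (PLS.lt hzn ht2))
    (LC.of_wls (WLS.const _)) ?_
  refine lc_ite (PLS.lt hzn (NLS.hn hs))
    (LC.of_wls (WLS.append (WLS.const _) (WLS.pr (WLS.re hx)))) ?_
  refine lc_ite (PLS.weq (WLS.pr (WLS.re (WLS.re hx))) (WLS.const [])) ?_
    (LC.of_wls (WLS.append (WLS.const _) (WLS.pr (WLS.re (WLS.re hx)))))
  exact LC.of_wls (WLS.append (WLS.const _) (WLS.sdc (WLS.append (WLS.const _) (WLS.bits hzn))))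

theorem lc_cnb : LinComp cnb := by
  have h : WLS fun x => cnb x := wls_cnb (f := fun x => x) WLS.id
  exact LC.of_wls h

theorem lc_cadr : LinComp cadr := by
  have h : WLS fun x => cadr x := wls_cadr (f := fun x => x) WLS.id
  exact LC.of_wls h

/-- the network -/
noncomputable def cnet (A : Circ) : Net where
  deg := 2
  nb := cnb
  addr := fun u => cadr (u.drop 1)
  next := cnext A
  nb_lin := lc_cnb
  addr_lin := LC.of_wls (wls_cadr (WLS.drop WLS.id 1))
  next_lin := lc_cnext A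

/-- the decompressor -/
noncomputable def edec (E : Decomp) : Decomp where
  addr := eadr E
  next := enext E
  addr_lin := lc_eadr E
  next_lin := lc_enext E

theorem isCirc_cnet (A : Circ) : IsCirc A (cnet A) := by
  refine ⟨?_, ?_, ?_, ?_⟩ <;> simp only [cnet]

theorem isDec_edec (E : Decomp) : IsDec E (edec E) := by
  refine ⟨?_, ?_⟩ <;> simp only [edec]

/-- CLIN. -/
theorem clin : CLIN_stmt :=
  ⟨fun A => ⟨cnet A, isCirc_cnet A⟩, fun E => ⟨edec E, isDec_edec E⟩⟩

end Pool.Agent.Helper65.NX.K36
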